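import Pool.Agent.H55.CU.Targets
import Pool.Agent.H96.Cop.Coarse

/-!
# MP_65efe8_pr, board cou_modules, row COA: decomposition at the first excursion below the
interface with more than `L` sites
-/

set_option autoImplicit false

open MeasureTheory ProbabilityTheory Filter Topology
open scoped ENNReal
open Pool.Agent.H95 Pool.Agent.H95.Cop Pool.Agent.H96.Cop

namespace Pool.Agent.H19.CU

open Pool.Agent.H55.CU

/-- bound of the remaining part from a site `s = a k + r` of the cell `a`. -/
theorem coa_RR (K : PMF ℕ) (k L : ℕ) (hkL : k ≤ L) (G : ℕ → ℝ≥0∞)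
    (hG : ∀ j m : ℕ, 1 ≤ j → L < m → (j - 1) * k < m → m < (j + 1) * k → pk K m * 2⁻¹ ≤ G j)
    (n a r : ℕ) (han : a < n) (hr : r < k) (x : ℕ → ℝ) :
    RR K L (n * k - (a * k + r)) (shift (a * k + r) x) ≤
      ex (a * k + r) ((a + 1) * k) x * (∑ b ∈ Finset.Ico (a + 1) n, G (b - a) *
        ex ((a + 1) * k) (b * k) x * Psi K k (n - b) (shift (b * k) x) +
        ex ((a + 1) * k) (n * k) x) + 1 := by
  set s := a * k + r with hs
  have hs1 : s < (a + 1) * k := by rw [hs, add_mul, one_mul]; omega
  have han' : (a + 1) * k ≤ n * k := Nat.mul_le_mul_right k han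
  unfold Pool.Agent.H96.Cop.RR
  rw [ex_shift, zero_add]
  have e1 : n * k - s + s = n * k := by omega
  rw [e1, ← ex_mul x hs1.le han', mul_add, add_comm (1:ℝ≥0∞), ← add_assoc]
  refine add_le_add (add_le_add ?_ le_rfl) le_rfl
  -- the sum over the position of the end of the long excursion
  have h1 : ∀ m ∈ Finset.Ico (L + 1) (n * k - s), pk K m * 2⁻¹ * ex 0 m (shift s x) *
      Wn K (n * k - s - m) (shift m (shift s x)) =
      (fun u => pk K (u - s) * 2⁻¹ * ex s u x * Wn K (n * k - u) (shift u x)) (m + s) := by
    intro m hm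
    rw [Finset.mem_Ico] at hm
    simp only
    rw [ex_shift, shift_shift, zero_add, Nat.add_sub_cancel]
    congr 2
    omega
  rw [Finset.sum_congr rfl h1, Finset.sum_Ico_add' (fun u => pk K (u - s) * 2⁻¹ * ex s u x *
    Wn K (n * k - u) (shift u x)) (L + 1) (n * k - s) s, e1]
  have h2 : ∑ u ∈ Finset.Ico (L + 1 + s) (n * k), pk K (u - s) * 2⁻¹ * ex s u x *
      Wn K (n * k - u) (shift u x) ≤ ∑ u ∈ Finset.Ico ((a + 1) * k) (n * k),
      (if s + L < u then pk K (u - s) * 2⁻¹ * ex s u x * Wn K (n * k - u) (shift u x) else 0) := by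
    rw [← Finset.sum_filter]
    apply Finset.sum_le_sum_of_subset
    intro u hu
    rw [Finset.mem_Ico] at hu
    rw [Finset.mem_filter, Finset.mem_Ico]
    have : (a + 1) * k = a * k + k := by ring
    omega
  refine h2.trans ?_
  rw [sum_cells_Ico k, Finset.mul_sum]
  apply Finset.sum_le_sum
  intro b hb
  rw [Finset.mem_Ico] at hb
  unfold Psi
  rw [← mul_assoc, Finset.mul_sum]
  apply Finset.sum_le_sum
  intro e he
  rw [Finset.mem_range] at he
  have hb1 : (a + 1) * k ≤ b * k := Nat.mul_le_mul_right k hb.1
  have hb2 : (b + 1) * k ≤ n * k := Nat.mul_le_mul_right k hb.2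
  have hb3 : (b + 1) * k = b * k + k := by ring
  split_ifs with h
  · have hg : pk K (b * k + e - s) * 2⁻¹ ≤ G (b - a) := by
      apply hG (b - a) (b * k + e - s) (by omega) (by omega)
      · have e3 : (b - a - 1) * k = b * k - (a + 1) * k := by
          rw [← Nat.sub_mul]
          congr 1
        omega
      · have e3 : (b - a + 1) * k = (b + 1) * k - a * k := by
          rw [← Nat.sub_mul]
          congr 1
          omega
        have e4 : a * k ≤ (b + 1) * k := Nat.mul_le_mul_right k (by omega)
        omega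
    have e4 : ex s (b * k + e) x = ex s ((a + 1) * k) x * ex ((a + 1) * k) (b * k) x *
        ex 0 e (shift (b * k) x) := by
      rw [ex_shift, zero_add, ex_mul x hs1.le hb1, ex_mul x (hs1.le.trans hb1) (by omega)]
      congr 1
      omega
    have e5 : Wn K (n * k - (b * k + e)) (shift (b * k + e) x) =
        Wn K ((n - b) * k - e) (shift e (shift (b * k) x)) := by
      rw [shift_shift, Nat.sub_mul]
      congr 1
      · omega
      · congr 1
        omega
    rw [e4, e5]
    calc pk K (b * k + e - s) * 2⁻¹ * (ex s ((a + 1) * k) x * ex ((a + 1) * k) (b * k) x *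
          ex 0 e (shift (b * k) x)) * Wn K ((n - b) * k - e) (shift e (shift (b * k) x))
        ≤ G (b - a) * (ex s ((a + 1) * k) x * ex ((a + 1) * k) (b * k) x *
          ex 0 e (shift (b * k) x)) * Wn K ((n - b) * k - e) (shift e (shift (b * k) x)) := by
          gcongr
      _ = _ := by ring
  · exact zero_le

theorem pf_COA : T_COA := by
  intro K hK0 k L hk hkL G hG n hn x
  have hnk : k ≤ n * k := by
    calc k = 1 * k := (one_mul k).symm
      _ ≤ n * k := Nat.mul_le_mul_right k hn
  have h1 : ∀ e ∈ Finset.range k, ex 0 e x * Wn K (n * k - e) (shift e x) ≤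
      ∑ s ∈ Finset.range (n * k), (if e ≤ s then ex 0 e x * AA K L (s - e) (shift e x) *
        RR K L (n * k - s) (shift s x) else 0) := by
    intro e he
    rw [Finset.mem_range] at he
    have e1 : n * k - e = (n * k - e - 1) + 1 := by omega
    have h2 := dec K hK0 L (n * k - e - 1) (shift e x)
    rw [← e1] at h2
    refine (mul_le_mul_right h2 _).trans ?_
    rw [Finset.mul_sum]
    have e2 : ∀ t ∈ Finset.range (n * k - e), ex 0 e x * (AA K L t (shift e x) *
        RR K L (n * k - e - t) (shift t (shift e x))) =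
        (fun s => ex 0 e x * AA K L (s - e) (shift e x) * RR K L (n * k - s) (shift s x))
          (t + e) := by
      intro t ht
      simp only
      rw [Nat.add_sub_cancel, shift_shift, ← mul_assoc]
      congr 2
      omega
    rw [Finset.sum_congr rfl e2, Finset.range_eq_Ico,
      Finset.sum_Ico_add' (fun s => ex 0 e x * AA K L (s - e) (shift e x) *
        RR K L (n * k - s) (shift s x)) 0 (n * k - e) e, zero_add]
    have e3 : n * k - e + e = n * k := by omega
    rw [e3, ← Finset.sum_filter]
    apply Finset.sum_le_sum_of_subset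
    intro s hs
    rw [Finset.mem_Ico] at hs
    rw [Finset.mem_filter, Finset.mem_range]
    omega
  have hPsi : Psi K k n x = ∑ e ∈ Finset.range k, ex 0 e x * Wn K (n * k - e) (shift e x) := rfl
  rw [hPsi]
  refine (Finset.sum_le_sum h1).trans ?_
  have h3 : ∀ e ∈ Finset.range k, ∑ s ∈ Finset.range (n * k), (if e ≤ s then ex 0 e x *
      AA K L (s - e) (shift e x) * RR K L (n * k - s) (shift s x) else 0) =
      ∑ a ∈ Finset.range n, ∑ r ∈ Finset.range k, (if e ≤ a * k + r then ex 0 e x *
      AA K L (a * k + r - e) (shift e x) * RR K L (n * k - (a * k + r)) (shift (a * k + r) x)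
      else 0) := fun e _ => sum_cells k n _
  rw [Finset.sum_congr rfl h3, Finset.sum_comm]
  apply Finset.sum_le_sum
  intro a ha
  rw [Finset.mem_range] at ha
  unfold PL PQ
  rw [Finset.sum_mul, ← Finset.sum_add_distrib]
  apply Finset.sum_le_sum
  intro e _
  rw [Finset.sum_mul, ← Finset.sum_add_distrib]
  apply Finset.sum_le_sum
  intro r hr
  rw [Finset.mem_range] at hr
  split_ifs with h
  · have h4 := coa_RR K k L hkL G hG n a r ha hr x
    refine (mul_le_mul_right h4 _).trans (le_of_eq ?_)
    ring
  · simp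

end Pool.Agent.H19.CU
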