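import Pool.Agent.H55.CU.Targets
import Pool.Agent.H96.Cop.Frac

/-!
# MP_65efe8_pr, board cou_modules, row JEN: Jensen between two exponents
-/

set_option autoImplicit false

open MeasureTheory ProbabilityTheory Filter Topology
open scoped ENNReal
open Pool.Agent.H95 Pool.Agent.H95.Cop Pool.Agent.H96.Cop

namespace Pool.Agent.H19.CU

open Pool.Agent.H55.CU

theorem pf_JEN : T_JEN := by
  intro Ω _ P _ f hf s t hs hst
  rcases eq_or_lt_of_le hst with rfl | hlt
  · rw [div_self hs.ne', ENNReal.rpow_one]
  · have ht : 0 < t := hs.trans hlt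
    have h := lint_rpow_le P (fun x => f x ^ t) (hf.pow_const t) (s / t) (div_pos hs ht)
      ((div_lt_one ht).2 hlt)
    have h2 : ∀ x, (f x ^ t) ^ (s / t) = f x ^ s := by
      intro x
      rw [← ENNReal.rpow_mul, mul_div_cancel₀ s ht.ne']
    simp only [h2] at h
    exact h

end Pool.Agent.H19.CU
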