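import Pool.Agent.H55.CU.Targets
import Pool.Agent.H96.Cop.Frac

/-!
# MP_65efe8_pr, board cou_modules, row MOR: the recursion of the moments
-/

set_option autoImplicit false

open MeasureTheory ProbabilityTheory Filter Topology
open scoped ENNReal
open Pool.Agent.H95 Pool.Agent.H95.Cop Pool.Agent.H96.Cop

namespace Pool.Agent.H19.CU

open Pool.Agent.H55.CU

/-- powers of conditional terms -/
theorem mor_ite (c : Prop) [Decidable c] (X : ℝ≥0∞) (θ : ℝ) (hθ : 0 < θ) :
    (if c then X else 0) ^ θ = if c then X ^ θ else 0 := by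
  split_ifs
  · rfl
  · exact ENNReal.zero_rpow_of_pos hθ

/-- the integral of one term -/
theorem mor_term (ν : Measure ℝ) [IsProbabilityMeasure ν] (θ : ℝ) (hθ : 0 < θ)
    (P P' : (ℕ → ℝ) → ℝ≥0∞) (hP : Measurable P) (hP' : Measurable P') (k b j : ℕ) (hj : 1 ≤ j)
    (hd : DepLt ((b + 1) * k) P) (g : ℝ≥0∞) :
    ∫⁻ x, (P x * (g * ex ((b + 1) * k) ((b + j) * k) x) * P' (shift ((b + j) * k) x)) ^ θ
      ∂(iid ν) = (∫⁻ x, P x ^ θ ∂(iid ν)) * (g ^ θ * Mo ν θ ^ ((j - 1) * k)) *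
        ∫⁻ x, P' x ^ θ ∂(iid ν) := by
  have hbj : (b + 1) * k ≤ (b + j) * k := Nat.mul_le_mul_right k (by omega)
  have hb : (j - 1) * k + (b + 1) * k = (b + j) * k := by
    rw [← add_mul]
    congr 1
    omega
  have h1 : ∀ x : ℕ → ℝ, (P x * (g * ex ((b + 1) * k) ((b + j) * k) x) *
      P' (shift ((b + j) * k) x)) ^ θ = (fun x => P x ^ θ *
        (g ^ θ * ex ((b + 1) * k) ((b + j) * k) x ^ θ)) x *
        (fun y => P' y ^ θ) (shift ((b + j) * k) x) := by
    intro x
    simp only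
    rw [ENNReal.mul_rpow_of_nonneg _ _ hθ.le, ENNReal.mul_rpow_of_nonneg _ _ hθ.le,
      ENNReal.mul_rpow_of_nonneg _ _ hθ.le]
  have hdep : DepLt ((b + j) * k) (fun x => P x ^ θ *
      (g ^ θ * ex ((b + 1) * k) ((b + j) * k) x ^ θ)) := by
    intro x x' h
    simp only
    rw [hd.mono hbj x x' h, ex_dep _ _ x x' h]
  have hm1 : Measurable (fun x => P x ^ θ *
      (g ^ θ * ex ((b + 1) * k) ((b + j) * k) x ^ θ)) :=
    (hP.pow_const θ).mul (((measurable_ex _ _).pow_const θ).const_mul _)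
  have hm2 : Measurable (fun y => P' y ^ θ) := hP'.pow_const θ
  rw [lintegral_congr h1, lint_mul_shift ν hdep hm1 hm2]
  congr 1
  have h2 : ∀ x : ℕ → ℝ, P x ^ θ * (g ^ θ * ex ((b + 1) * k) ((b + j) * k) x ^ θ) =
      (fun x => P x ^ θ) x * (fun y => g ^ θ * ex 0 ((j - 1) * k) y ^ θ)
        (shift ((b + 1) * k) x) := by
    intro x
    simp only
    rw [ex_shift, zero_add, hb]
  have hdep2 : DepLt ((b + 1) * k) (fun x => P x ^ θ) := by
    intro x x' h
    simp only
    rw [hd x x' h]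
  have hm3 : Measurable (fun y => g ^ θ * ex 0 ((j - 1) * k) y ^ θ) :=
    ((measurable_ex _ _).pow_const θ).const_mul _
  rw [lintegral_congr h2, lint_mul_shift ν hdep2 (hP.pow_const θ) hm3]
  congr 1
  rw [lintegral_const_mul _ ((measurable_ex _ _).pow_const θ), lint_ex_rpow ν θ hθ.le]

theorem pf_MOR (h1 : T_CEL) (h2 : T_MPL) : T_MOR := by
  intro K k J hk hJ g hg ν _ θ hθ hθ1 a
  have hm : ∀ L b, Measurable (PL K k L b) := fun L b => (h2 K k L b).1
  have hd : ∀ L b, DepLt ((b + 1) * k) (PL K k L b) := fun L b => (h2 K k L b).2.2.1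
  have hpt : ∀ x : ℕ → ℝ, PL K k (k * (2 * J)) a x ^ θ ≤ PL K k (k * J) a x ^ θ +
      ∑ b ∈ Finset.range (a + 1), ∑ j ∈ Finset.Icc J (2 * J),
        if b + j ≤ a then (PL K k (k * J) b x * (g * ex ((b + 1) * k) ((b + j) * k) x) *
          PL K k (k * (2 * J)) (a - b - j) (shift ((b + j) * k) x)) ^ θ else 0 := by
    intro x
    refine (ENNReal.rpow_le_rpow (h1 K k J hk hJ g hg a x) hθ.le).trans ?_
    refine (ENNReal.rpow_add_le_add_rpow _ _ hθ.le hθ1).trans ?_
    refine add_le_add le_rfl ?_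
    refine (rpow_sum_le _ _ θ hθ hθ1).trans ?_
    refine Finset.sum_le_sum fun b _ => ?_
    refine (rpow_sum_le _ _ θ hθ hθ1).trans ?_
    refine Finset.sum_le_sum fun j _ => ?_
    rw [mor_ite _ _ θ hθ]
  have hmt : ∀ b j : ℕ, Measurable (fun x : ℕ → ℝ =>
      if b + j ≤ a then (PL K k (k * J) b x * (g * ex ((b + 1) * k) ((b + j) * k) x) *
          PL K k (k * (2 * J)) (a - b - j) (shift ((b + j) * k) x)) ^ θ else 0) := by
    intro b j
    split_ifs
    · exact (((hm _ _).mul ((measurable_ex _ _).const_mul _)).mul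
        ((hm _ _).comp (measurable_shift _))).pow_const θ
    · exact measurable_const
  refine (lintegral_mono hpt).trans ?_
  rw [lintegral_add_left ((hm _ _).pow_const θ), lintegral_finsetSum _
    (fun b _ => Finset.measurable_sum _ (fun j _ => hmt b j))]
  refine add_le_add le_rfl ?_
  refine Finset.sum_le_sum fun b _ => ?_
  rw [lintegral_finsetSum _ (fun j _ => hmt b j)]
  refine Finset.sum_le_sum fun j hj => ?_
  rw [Finset.mem_Icc] at hj
  split_ifs with h
  · exact le_of_eq (mor_term ν θ hθ _ _ (hm _ _) (hm _ _) k b j (by omega) (hd _ _) g)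
  · simp

end Pool.Agent.H19.CU
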